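import Mathlib

set_option autoImplicit false

open Matrix

namespace Pool.Agent.Results.MP_104382_al.Q2

/-- The open unit square is not paradoxical under SL_2(Z), hence not under the subgroup F generated
by the matrices with rows (1,2),(0,1) and (1,0),(2,1). -/
theorem result :
    (¬ ∃ (n m : ℕ) (A : Fin n → Set (Fin 2 → ℝ)) (B : Fin m → Set (Fin 2 → ℝ))
        (g : Fin n → SpecialLinearGroup (Fin 2) ℤ) (h : Fin m → SpecialLinearGroup (Fin 2) ℤ),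
        (∀ i, A i ⊆ {v | ∀ k, v k ∈ Set.Ioo (0 : ℝ) 1}) ∧
        (∀ j, B j ⊆ {v | ∀ k, v k ∈ Set.Ioo (0 : ℝ) 1}) ∧
        Pairwise (fun i i' => Disjoint (A i) (A i')) ∧
        Pairwise (fun j j' => Disjoint (B j) (B j')) ∧
        (∀ i j, Disjoint (A i) (B j)) ∧
        (⋃ i, (fun v => ((g i).1.map (Int.cast : ℤ → ℝ)) *ᵥ v) '' A i)
          = {v | ∀ k, v k ∈ Set.Ioo (0 : ℝ) 1} ∧
        (⋃ j, (fun v => ((h j).1.map (Int.cast : ℤ → ℝ)) *ᵥ v) '' B j)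
          = {v | ∀ k, v k ∈ Set.Ioo (0 : ℝ) 1}) ∧
    (¬ ∃ (n m : ℕ) (A : Fin n → Set (Fin 2 → ℝ)) (B : Fin m → Set (Fin 2 → ℝ))
        (g : Fin n → SpecialLinearGroup (Fin 2) ℤ) (h : Fin m → SpecialLinearGroup (Fin 2) ℤ),
        (∀ i, g i ∈ Subgroup.closure {M : SpecialLinearGroup (Fin 2) ℤ |
          M.1 = !![1, 2; 0, 1] ∨ M.1 = !![1, 0; 2, 1]}) ∧
        (∀ j, h j ∈ Subgroup.closure {M : SpecialLinearGroup (Fin 2) ℤ |
          M.1 = !![1, 2; 0, 1] ∨ M.1 = !![1, 0; 2, 1]}) ∧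
        (∀ i, A i ⊆ {v | ∀ k, v k ∈ Set.Ioo (0 : ℝ) 1}) ∧
        (∀ j, B j ⊆ {v | ∀ k, v k ∈ Set.Ioo (0 : ℝ) 1}) ∧
        Pairwise (fun i i' => Disjoint (A i) (A i')) ∧
        Pairwise (fun j j' => Disjoint (B j) (B j')) ∧
        (∀ i j, Disjoint (A i) (B j)) ∧
        (⋃ i, (fun v => ((g i).1.map (Int.cast : ℤ → ℝ)) *ᵥ v) '' A i)
          = {v | ∀ k, v k ∈ Set.Ioo (0 : ℝ) 1} ∧
        (⋃ j, (fun v => ((h j).1.map (Int.cast : ℤ → ℝ)) *ᵥ v) '' B j)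
          = {v | ∀ k, v k ∈ Set.Ioo (0 : ℝ) 1}) := by
  have key : ∀ (M : SpecialLinearGroup (Fin 2) ℤ) (v : Fin 2 → ℝ),
      (∀ k, v k ∈ Set.Ioo (0 : ℝ) 1) → (M.1.map (Int.cast : ℤ → ℝ)) *ᵥ v = (fun _ => 1 / 2) →
      v = fun _ => 1 / 2 := by
    intro M v hv hM
    have hd : M.1 0 0 * M.1 1 1 - M.1 0 1 * M.1 1 0 = 1 := by
      have := M.2; rwa [Matrix.det_fin_two] at this
    have hd' : (M.1 0 0 : ℝ) * M.1 1 1 - M.1 0 1 * M.1 1 0 = 1 := by exact_mod_cast hd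
    have e0 := congrFun hM 0
    have e1 := congrFun hM 1
    simp only [Matrix.mulVec, dotProduct, Fin.sum_univ_two, Matrix.map_apply] at e0 e1
    have half : ∀ (x : ℝ) (z : ℤ), x ∈ Set.Ioo (0 : ℝ) 1 → 2 * x = z → x = 1 / 2 := by
      intro x z hx hz
      have h1 : (0 : ℝ) < z := by linarith [hx.1]
      have h2 : (z : ℝ) < 2 := by linarith [hx.2]
      have h3 : 0 < z := by exact_mod_cast h1
      have h4 : z < 2 := by exact_mod_cast h2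
      have h5 : z = 1 := by omega
      rw [h5] at hz; push_cast at hz; linarith
    funext k
    fin_cases k
    · refine half _ (M.1 1 1 - M.1 0 1) (hv 0) ?_
      push_cast
      show 2 * v 0 = _
      linear_combination (-2 * v 0) * hd' + 2 * (M.1 1 1 : ℝ) * e0 - 2 * (M.1 0 1 : ℝ) * e1
    · refine half _ (M.1 0 0 - M.1 1 0) (hv 1) ?_
      push_cast
      show 2 * v 1 = _
      linear_combination (-2 * v 1) * hd' + 2 * (M.1 0 0 : ℝ) * e1 - 2 * (M.1 1 0 : ℝ) * e0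
  have main : ¬ ∃ (n m : ℕ) (A : Fin n → Set (Fin 2 → ℝ)) (B : Fin m → Set (Fin 2 → ℝ))
        (g : Fin n → SpecialLinearGroup (Fin 2) ℤ) (h : Fin m → SpecialLinearGroup (Fin 2) ℤ),
        (∀ i, A i ⊆ {v | ∀ k, v k ∈ Set.Ioo (0 : ℝ) 1}) ∧
        (∀ j, B j ⊆ {v | ∀ k, v k ∈ Set.Ioo (0 : ℝ) 1}) ∧
        Pairwise (fun i i' => Disjoint (A i) (A i')) ∧
        Pairwise (fun j j' => Disjoint (B j) (B j')) ∧
        (∀ i j, Disjoint (A i) (B j)) ∧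
        (⋃ i, (fun v => ((g i).1.map (Int.cast : ℤ → ℝ)) *ᵥ v) '' A i)
          = {v | ∀ k, v k ∈ Set.Ioo (0 : ℝ) 1} ∧
        (⋃ j, (fun v => ((h j).1.map (Int.cast : ℤ → ℝ)) *ᵥ v) '' B j)
          = {v | ∀ k, v k ∈ Set.Ioo (0 : ℝ) 1} := by
    rintro ⟨n, m, A, B, g, h, hA, hB, -, -, hAB, e1, e2⟩
    have hc : (fun _ => 1 / 2 : Fin 2 → ℝ) ∈ {v : Fin 2 → ℝ | ∀ k, v k ∈ Set.Ioo (0 : ℝ) 1} := by
      intro k; constructor <;> norm_num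
    obtain ⟨i, v, hv, hv'⟩ := Set.mem_iUnion.1 (e1.symm ▸ hc)
    obtain ⟨j, w, hw, hw'⟩ := Set.mem_iUnion.1 (e2.symm ▸ hc)
    have h1 := key _ v (hA i hv) hv'
    have h2 := key _ w (hB j hw) hw'
    exact Set.disjoint_left.1 (hAB i j) hv ((h1.trans h2.symm) ▸ hw)
  refine ⟨main, ?_⟩
  rintro ⟨n, m, A, B, g, h, -, -, H⟩
  exact main ⟨n, m, A, B, g, h, H⟩

end Pool.Agent.Results.MP_104382_al.Q2
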